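import Mathlib
import Pool.Graph.R_seed8.Helper778.AN.Main

/-!
# Every monic integer polynomial, shifted by an integer, is a factor of a chromatic polynomial

For every monic integer polynomial `f` of degree `k` and every large `n` the polynomial
`X (X - 1) ... (X - m + 1) * f (X - n)`, with `m = n + s` and `s` depending only on `f`, *is* the
chromatic polynomial of a graph, which consists of a clique with `m` vertices and an induced path
with `k` vertices.
-/

set_option autoImplicit false
set_option maxHeartbeats 4000000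

namespace Pool.Agent.Results.MP_f55c5e_co.EveryMonicPolynomial

open Polynomial Finset Pool.Agent.Helper778.AN

/-- `p` is the chromatic polynomial of the finite simple graph `G`: for every natural number `q`
its value at `q` is the number of proper colourings of `G` with `q` colours. -/
def IsChromaticPoly {V : Type} (G : SimpleGraph V) (p : ℤ[X]) : Prop :=
  ∀ q : ℕ, p.eval (q : ℤ) = (Nat.card (G.Coloring (Fin q)) : ℤ)

/-- the first `m` vertices form a clique and the last `k` vertices form an induced path -/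
def IsCliquePlusPath {m k : ℕ} (G : SimpleGraph (Fin m ⊕ Fin k)) : Prop :=
  (∀ a b : Fin m, a ≠ b → G.Adj (Sum.inl a) (Sum.inl b)) ∧
    ∀ i j : Fin k, G.Adj (Sum.inr i) (Sum.inr j) ↔ i.1 + 1 = j.1 ∨ j.1 + 1 = i.1

theorem cliquePlusPath {m : ℕ} (S : ℕ → Finset (Fin m)) (k : ℕ) :
    IsCliquePlusPath (cliquePath S k) :=
  ⟨fun _ _ h => h, fun _ _ => Iff.rfl⟩

/-- the sets on a type with `m` elements can be moved to `Fin m` -/
theorem move {B : Type} [Fintype B] [DecidableEq B] (S : ℕ → Finset B) {m : ℕ}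
    (hm : Fintype.card B = m) : ∃ S' : ℕ → Finset (Fin m), ∀ i j : ℕ,
      (univ.filter (fun b : Fin m => ∀ l ∈ Icc i j, b ∈ S' l)).card =
        (univ.filter (fun b : B => ∀ l ∈ Icc i j, b ∈ S l)).card := by
  have e : B ≃ Fin m := Fintype.equivFinOfCardEq hm
  refine ⟨fun l => (S l).map e.toEmbedding, fun i j => ?_⟩
  symm
  apply Finset.card_equiv e
  intro b
  simp only [mem_filter, mem_univ, true_and, mem_map_equiv, Equiv.symm_apply_apply]

theorem realize (f : ℤ[X]) (hf : f.Monic) :
    ∃ (s : ℤ) (N : ℕ), ∀ n : ℕ, N ≤ n → ∃ m : ℕ, (m : ℤ) = n + s ∧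
      ∃ G : SimpleGraph (Fin m ⊕ Fin f.natDegree), IsCliquePlusPath G ∧
        IsChromaticPoly G ((∏ i ∈ range m, (X - C (i : ℤ))) * f.comp (X - C (n : ℤ))) := by
  rcases Nat.eq_zero_or_pos f.natDegree with hk | hk
  · have hf1 : f = 1 := hf.natDegree_eq_zero.mp hk
    refine ⟨0, 0, fun n _ => ⟨n, by ring, cliquePath (fun _ => ∅) f.natDegree,
      cliquePlusPath _ _, fun q => ?_⟩⟩
    rw [count_formula, eval_mul, eval_prod, R_of_ge _ (by omega), Fintype.card_fin, hf1]
    simp
  · obtain ⟨c, d, h1, h2, h3, hR⟩ := algebra_main f.natDegree hk f hf rfl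
    set k := f.natDegree with hkdef
    obtain ⟨s, nn, hn1, hn2⟩ := choose_n k hk c d h1 h2 h3
    set B0 := (Σ p : Fin k × Fin k, Fin (nn p.1.1 p.2.1)) with hB0
    refine ⟨s, ((Fintype.card B0 : ℤ) - s).toNat, ?_⟩
    intro n hn
    have hn' : (Fintype.card B0 : ℤ) - s ≤ n := by
      have := Int.self_le_toNat ((Fintype.card B0 : ℤ) - s)
      omega
    obtain ⟨e, he⟩ : ∃ e : ℕ, (n : ℤ) = (Fintype.card B0 : ℤ) - s + e :=
      ⟨((n : ℤ) - ((Fintype.card B0 : ℤ) - s)).toNat, by omega⟩
    let S : ℕ → Finset (B0 ⊕ Fin e) := fun l => univ.filter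
          (fun b : (Σ p : Fin k × Fin k, Fin (nn p.1.1 p.2.1)) ⊕ Fin e =>
            ∃ x, b = Sum.inl x ∧ x.1.1.1 ≤ l ∧ l ≤ x.1.2.1)
    have hcard : (Fintype.card (B0 ⊕ Fin e) : ℤ) = n + s := by
      rw [Fintype.card_sum, Fintype.card_fin]
      push_cast
      omega
    obtain ⟨m, hm⟩ : ∃ m, Fintype.card (B0 ⊕ Fin e) = m := ⟨_, rfl⟩
    obtain ⟨S', hS'⟩ := move S hm
    have hm' : (m : ℤ) = n + s := by rw [← hm]; exact hcard
    refine ⟨m, hm', cliquePath S' k, cliquePlusPath _ _, ?_⟩
    intro q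
    rw [count_formula S' k q, eval_mul, eval_prod, Fintype.card_fin]
    congr 1
    · apply Finset.prod_congr rfl
      intro i _
      simp
    · rw [eval_comp]
      have hx : (q : ℤ) - n = ((q : ℤ) - m) + s := by
        rw [hm']; ring
      have hN : ∀ i j, i ≤ j → j < k →
          ((univ.filter (fun b : Fin m => ∀ l ∈ Icc i j, b ∈ S' l)).card : ℤ) =
          ((∑ p ∈ range (i + 1), ∑ q ∈ Ico j k, nn p q : ℕ) : ℤ) := by
        intro i j hij hj
        have := card_types k e nn i j hij hj
        exact congrArg (fun x : ℕ => (x : ℤ)) ((hS' i j).trans this)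
      rw [R_congr k _ (fun i j => (-1) ^ (j - i) * (((q : ℤ) - m) +
        ((∑ p ∈ range (i + 1), ∑ q ∈ Ico j k, nn p q : ℕ) : ℤ)))
        (fun i j hij hj => by rw [hN i j hij hj])]
      rw [transform k _ ((q : ℤ) - n) s
        (fun i j => ((∑ p ∈ range (i + 1), ∑ q ∈ Ico j k, nn p q : ℕ) : ℤ)) hx]
      have hev : eval ((q : ℤ) - n) f = R k (fun i j => if j = i then ((q : ℤ) - n) + c i
          else (-1) ^ (j - i - 1) * d i j) 0 := by
        rw [← hR, ← coe_evalRingHom, map_R]
        apply R_congr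
        intro i j _ _
        by_cases hji : j = i
        · simp [hji]
        · simp [hji]
      have e2 : eval (q : ℤ) (X - C (n : ℤ)) = (q : ℤ) - n := by simp
      rw [e2, hev]
      apply R_congr
      intro i j hij hj
      by_cases hji : j = i
      · subst hji
        simp only [if_true]
        rw [← hn1 j hj]
      · simp only [if_neg hji]
        rw [← hn2 i j (by omega) hj]

/-- **Every monic integer polynomial is, after a shift by an integer, the nontrivial factor of a
chromatic polynomial.** (1) For every monic `f` in `ℤ[X]` there are an integer `s` and a number `N`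
such that for every `n ≥ N` the polynomial `X (X - 1) ⋯ (X - m + 1) * f (X - n)` with `m = n + s` is
the chromatic polynomial of a graph with `m + deg f` vertices consisting of a clique with `m`
vertices and an induced path with `deg f` vertices. (2) For every finite set `A` of algebraic
integers and every `r` there is an `N` such that for every `n ≥ N` some chromatic polynomial has
all the numbers `α + n`, `α ∈ A`, as roots of multiplicity at least `r`. -/
theorem result :
    (∀ f : ℤ[X], f.Monic → ∃ (s : ℤ) (N : ℕ), ∀ n : ℕ, N ≤ n → ∃ m : ℕ, (m : ℤ) = n + s ∧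
      ∃ G : SimpleGraph (Fin m ⊕ Fin f.natDegree), IsCliquePlusPath G ∧
        IsChromaticPoly G ((∏ i ∈ range m, (X - C (i : ℤ))) * f.comp (X - C (n : ℤ)))) ∧
    ∀ (A : Finset ℂ) (r : ℕ), (∀ α ∈ A, IsIntegral ℤ α) → ∃ N : ℕ, ∀ n : ℕ, N ≤ n →
      ∃ (V : Type) (_ : Fintype V) (G : SimpleGraph V) (p : ℤ[X]), IsChromaticPoly G p ∧
        ∀ α ∈ A, r ≤ (p.map (Int.castRingHom ℂ)).rootMultiplicity (α + n) := by
  refine ⟨realize, fun A r hA => ?_⟩
  have hmon : (∏ α ∈ A, minpoly ℤ α ^ r).Monic :=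
    monic_prod_of_monic _ _ fun α hα => (minpoly.monic (hA α hα)).pow r
  obtain ⟨s, N, h⟩ := realize _ hmon
  refine ⟨N, fun n hn => ?_⟩
  obtain ⟨m, -, G, -, hG⟩ := h n hn
  refine ⟨_, inferInstance, G, _, hG, fun α hα => ?_⟩
  have hp : ((∏ i ∈ range m, (X - C (i : ℤ))) *
      (∏ α ∈ A, minpoly ℤ α ^ r).comp (X - C (n : ℤ))).Monic :=
    (monic_prod_of_monic _ _ fun i _ => monic_X_sub_C _).mul
      (hmon.comp (monic_X_sub_C _) (by rw [natDegree_X_sub_C]; exact one_ne_zero))
  rw [le_rootMultiplicity_iff (hp.map _).ne_zero, Polynomial.map_mul]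
  refine dvd_mul_of_dvd_right ?_ _
  rw [Polynomial.map_comp]
  have h1 : (X - C α) ^ r ∣ (∏ α ∈ A, minpoly ℤ α ^ r).map (Int.castRingHom ℂ) := by
    rw [Polynomial.map_prod]
    refine dvd_trans ?_ (Finset.dvd_prod_of_mem _ hα)
    rw [Polynomial.map_pow]
    refine pow_dvd_pow_of_dvd ?_ r
    rw [dvd_iff_isRoot, IsRoot, eval_map, ← algebraMap_int_eq, ← aeval_def]
    exact minpoly.aeval ℤ α
  obtain ⟨g, hg⟩ := h1
  rw [hg, mul_comp, pow_comp]
  refine dvd_mul_of_dvd_left ?_ _
  refine pow_dvd_pow_of_dvd (dvd_of_eq ?_) r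
  simp
  ring

end Pool.Agent.Results.MP_f55c5e_co.EveryMonicPolynomial
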